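import Pool.Agent.Y546.WQ.Stm4

/-!
# Project WE: the ideal of the factor `z - w y` (helper702; adapted from helper261's IDE)
-/

set_option autoImplicit false
set_option linter.all false

namespace Pool.Agent.Y702.WQ

open Finset Polynomial

variable {R : Type} [CommRing R] [IsDedekindDomain R]

theorem p_dvd {p : ℕ} [Fact p.Prime] {η : R} (hη : IsPrimitiveRoot η p) : 1 - η ∣ (p : R) := by
  have hp : p.Prime := Fact.out
  have h1 : (cyclotomic p R).IsRoot η := hη.isRoot_cyclotomic hp.pos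
  have h2 := Polynomial.sub_dvd_eval_sub 1 η (cyclotomic p R)
  rw [eval_one_cyclotomic_prime, h1, sub_zero] at h2
  exact h2

open Ideal in
/-- the factors of a sum of two `p`-th powers -/
theorem fam (p : ℕ) [Fact p.Prime] (hp2 : p ≠ 2) (R : Type) [CommRing R] [IsDedekindDomain R]
    (z : R) (hz : IsPrimitiveRoot z p) (X Y Z : R) (hX : X ≠ 0) (hZ : Z ≠ 0)
    (h : X ^ p + Y ^ p + Z ^ p = 0)
    (hcase : ∀ P : Ideal R, P.IsPrime → ((p : ℕ) : R) ∈ P → Z ∉ P) :
    ∀ ζ : R, ζ ^ p = 1 → X + ζ * Y ≠ 0 ∧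
      ∃ A : Ideal R, A ≠ ⊥ ∧ span {X + ζ * Y} = span {X, Y} * A ^ p := by
  have hp : p.Prime := Fact.out
  have hodd : Odd p := hp.odd_of_ne_two hp2
  have hp0 : p ≠ 0 := hp.ne_zero
  set G : Ideal R := span {X, Y} with hG
  have hXG : X ∈ G := subset_span (by simp)
  have hYG : Y ∈ G := subset_span (by simp)
  have hG0 : G ≠ ⊥ := by
    rintro h0
    rw [h0, mem_bot] at hXG
    exact hX hXG
  set S : Finset R := nthRootsFinset p (1 : R) with hS
  have hfac : ∀ ζ : R, ∃ I : Ideal R, span {X + ζ * Y} = G * I := fun ζ =>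
    dvd_span_singleton.2 (add_mem hXG (mul_mem_left _ _ hYG))
  choose I hI using hfac
  have hprod : ∏ ζ ∈ S, (X + ζ * Y) = -Z ^ p := by
    rw [← hz.pow_add_pow_eq_prod_add_mul X Y hodd]
    linear_combination h
  have hne : ∀ ζ ∈ S, X + ζ * Y ≠ 0 := by
    intro ζ hζ h0
    have h1 : ∏ ζ ∈ S, (X + ζ * Y) = 0 := prod_eq_zero hζ h0
    rw [hprod, neg_eq_zero] at h1
    exact hZ (pow_eq_zero_iff hp0 |>.1 h1)
  have hI0 : ∀ ζ ∈ S, I ζ ≠ ⊥ := by
    intro ζ hζ h0
    have h1 := hI ζ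
    rw [h0, mul_bot, span_singleton_eq_bot] at h1
    exact hne ζ hζ h1
  have hGp : G ^ p * ∏ ζ ∈ S, I ζ = span {Z} ^ p := by
    have h1 : ∏ ζ ∈ S, span {X + ζ * Y} = G ^ p * ∏ ζ ∈ S, I ζ := by
      rw [prod_congr rfl fun ζ _ => hI ζ, prod_mul_distrib, prod_const, hS, hz.card_nthRootsFinset]
    rw [← h1, prod_span_singleton, hprod, span_singleton_neg, span_singleton_pow]
  have hGZ : G ∣ span {Z} := by
    have h1 : G ^ p ∣ span {Z} ^ p := ⟨_, hGp.symm⟩
    exact (UniqueFactorizationMonoid.pow_dvd_pow_iff_dvd hp0).1 h1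
  obtain ⟨Z', hZ'⟩ := hGZ
  have hprodI : ∏ ζ ∈ S, I ζ = Z' ^ p := by
    rw [hZ', mul_pow] at hGp
    exact mul_left_cancel₀ (pow_ne_zero p hG0) hGp
  have hroot : ∀ ζ ∈ S, ζ ^ p = 1 := fun ζ hζ => (mem_nthRootsFinset hp.pos 1).1 hζ
  have hunit : ∀ ζ ∈ S, IsUnit ζ := fun ζ hζ => IsUnit.of_pow_eq_one (hroot ζ hζ) hp0
  have hcop : ∀ ζ ∈ S, ∀ ξ ∈ S, ζ ≠ ξ → IsCoprime (I ζ) (I ξ) := by
    intro ζ hζ ξ hξ hne'
    by_contra hcon
    rw [Ideal.isCoprime_iff_sup_eq] at hcon
    obtain ⟨P, hP, hle⟩ := exists_le_maximal _ hcon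
    have hPp : P.IsPrime := hP.isPrime
    have hPI : P ∣ I ζ := dvd_iff_le.2 (le_sup_left.trans hle)
    have hPJ : P ∣ I ξ := dvd_iff_le.2 (le_sup_right.trans hle)
    have hP0 : P ≠ ⊥ := by
      rintro rfl
      exact hI0 ζ hζ (zero_dvd_iff.1 hPI)
    have hPr : Prime P := prime_of_isPrime hP0 hPp
    have m1 : X + ζ * Y ∈ P * G := by
      rw [← dvd_span_singleton, hI, mul_comm P G]
      exact mul_dvd_mul_left G hPI
    have m2 : X + ξ * Y ∈ P * G := by
      rw [← dvd_span_singleton, hI, mul_comm P G]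
      exact mul_dvd_mul_left G hPJ
    have m3 : (ζ - ξ) * Y ∈ P * G := by
      have : (ζ - ξ) * Y = (X + ζ * Y) - (X + ξ * Y) := by ring
      rw [this]
      exact sub_mem m1 m2
    have m4 : (ζ - ξ) * X ∈ P * G := by
      have : (ζ - ξ) * X = ζ * (X + ξ * Y) - ξ * (X + ζ * Y) := by ring
      rw [this]
      exact sub_mem (mul_mem_left _ _ m2) (mul_mem_left _ _ m1)
    have m5 : span {ζ - ξ} * G ≤ P * G := by
      rw [hG, span_mul_span', span_le, ← hG]
      rintro _ ⟨a, ha, b, hb, rfl⟩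
      rw [Set.mem_singleton_iff] at ha
      subst ha
      simp only [Set.mem_insert_iff, Set.mem_singleton_iff] at hb
      rcases hb with rfl | rfl
      · exact m4
      · exact m3
    have m6 : P ∣ span {ζ - ξ} := (mul_dvd_mul_iff_right hG0).1 (dvd_iff_le.2 m5)
    have m7 : ζ - ξ ∈ P := dvd_span_singleton.1 m6
    obtain ⟨u, hu⟩ := hunit ζ hζ
    set η : R := ξ * ((u⁻¹ : Rˣ) : R) with hη
    have e1 : ζ * η = ξ := by
      rw [hη, ← hu]
      calc (u : R) * (ξ * ((u⁻¹ : Rˣ) : R)) = ξ * ((u : R) * ((u⁻¹ : Rˣ) : R)) := by ring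
        _ = ξ := by rw [Units.mul_inv, mul_one]
    have e2 : η ^ p = 1 := by
      have h1 : (ζ * η) ^ p = 1 := by rw [e1]; exact hroot ξ hξ
      rwa [mul_pow, hroot ζ hζ, one_mul] at h1
    have e3 : η ≠ 1 := by
      intro h1
      rw [h1, mul_one] at e1
      exact hne' e1
    have e4 : IsPrimitiveRoot η p := by
      have h1 := IsPrimitiveRoot.orderOf η
      rwa [orderOf_eq_prime e2 e3] at h1
    have e5 : 1 - η ∈ P := by
      have : 1 - η = ((u⁻¹ : Rˣ) : R) * (ζ - ξ) := by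
        rw [← e1, ← hu]
        calc 1 - η = (1 - η) * (((u⁻¹ : Rˣ) : R) * (u : R)) := by rw [Units.inv_mul, mul_one]
          _ = _ := by ring
      rw [this]
      exact mul_mem_left _ _ m7
    have e6 : (p : R) ∈ P := P.mem_of_dvd (p_dvd e4) e5
    refine hcase P hPp e6 ?_
    have h1 : P ∣ Z' ^ p := by
      rw [← hprodI]
      exact hPI.trans (dvd_prod_of_mem _ hζ)
    have h2 : P ∣ span {Z} := by
      rw [hZ']
      exact (hPr.dvd_of_dvd_pow h1).mul_left G
    exact dvd_span_singleton.1 h2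
  have hpow := Finset.exists_eq_pow_of_mul_eq_pow_of_coprime hcop hprodI
  intro ζ hζ
  have hζS : ζ ∈ S := (mem_nthRootsFinset hp.pos 1).2 hζ
  obtain ⟨A, hA⟩ := hpow ζ hζS
  refine ⟨hne ζ hζS, A, ?_, ?_⟩
  · rintro rfl
    apply hI0 ζ hζS
    rw [hA]
    exact zero_pow hp0
  · rw [hI ζ, hA]

theorem aux_pow {M : Type} [CommMonoid M] (g B : M) (m p : ℕ) (hm : p = 2 * m + 1) :
    (g * g * B ^ p) ^ (m + 1) = g * (g * B ^ (m + 1)) ^ p := by
  rw [mul_pow, mul_pow g (B ^ (m + 1)) p, ← pow_two, ← pow_mul, ← pow_mul, ← pow_mul,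
    ← mul_assoc, ← pow_succ', mul_comm (m + 1) p]
  congr 2
  omega

theorem aux_mul {M : Type} [CommMonoid M] (g A X : M) : g * A * X = g * X * A := by
  rw [mul_assoc, mul_comm A X, ← mul_assoc]

theorem aux_mul2 {M : Type} [CommMonoid M] (g a b : M) : g * g * (a * b) = g * a * (g * b) := by
  rw [mul_mul_mul_comm]

open Ideal in
theorem mainIDEE : Pool.Agent.Y546.WQ.S_IDEE := by
  intro p _ hp2 R _ _ w hw x y z hx hy hz h hcase htwo
  have hp : p.Prime := Fact.out
  have hodd : Odd p := hp.odd_of_ne_two hp2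
  have hp0 : p ≠ 0 := hp.ne_zero
  have hwu : IsUnit w := IsUnit.of_pow_eq_one hw.pow_eq_one hp0
  have hF := fam p hp2 R w hw (z ^ 2) (-y ^ 2) (-x ^ 2) (pow_ne_zero 2 hz)
    (neg_ne_zero.2 (pow_ne_zero 2 hx))
    (by
      rw [hodd.neg_pow, hodd.neg_pow, ← pow_mul, ← pow_mul, ← pow_mul]
      linear_combination -h)
    (by
      intro P hP h1 h2
      have h3 : x ^ 2 ∈ P := by
        have := P.neg_mem h2
        rwa [neg_neg] at this
      exact hcase P hP h1 (hP.mem_of_pow_mem 2 h3))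
  set G : Ideal R := span {z ^ 2, -y ^ 2} with hG
  set g : Ideal R := span {z, y} with hg
  have hzg : z ∈ g := subset_span (by simp)
  have hyg : y ∈ g := subset_span (by simp)
  have hg0 : g ≠ ⊥ := by
    rintro h0
    rw [h0, mem_bot] at hzg
    exact hz hzg
  have hzG : z ^ 2 ∈ G := subset_span (by simp)
  have hyG : y ^ 2 ∈ G := by
    have h1 : -y ^ 2 ∈ G := subset_span (by simp)
    have := G.neg_mem h1
    rwa [neg_neg] at this
  have hgG : g * g = G := by
    have h1 : g * g * g = G * g := by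
      apply le_antisymm
      · rw [hg, span_pair_mul_span_pair, span_mul_span', span_le, ← hg]
        rintro _ ⟨a, ha, b, hb, rfl⟩
        simp only [Set.mem_insert_iff, Set.mem_singleton_iff] at ha hb
        have k1 : ∀ b ∈ g, z ^ 2 * b ∈ G * g := fun b hb => mul_mem_mul hzG hb
        have k2 : ∀ b ∈ g, y ^ 2 * b ∈ G * g := fun b hb => mul_mem_mul hyG hb
        simp only [SetLike.mem_coe]
        rcases ha with rfl | rfl | rfl | rfl <;> rcases hb with rfl | rfl
        · have := k1 _ hzg; convert this using 1; ring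
        · have := k1 _ hyg; convert this using 1; ring
        · have := k1 _ hyg; convert this using 1; ring
        · have := k2 _ hzg; convert this using 1; ring
        · have := k1 _ hyg; convert this using 1; ring
        · have := k2 _ hzg; convert this using 1; ring
        · have := k2 _ hzg; convert this using 1; ring
        · have := k2 _ hyg; convert this using 1; ring
      · apply Ideal.mul_mono_left
        rw [hG, span_le]
        intro a ha
        simp only [Set.mem_insert_iff, Set.mem_singleton_iff] at ha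
        rcases ha with rfl | rfl
        · rw [pow_two]; exact mul_mem_mul hzg hzg
        · rw [pow_two]; exact (g * g).neg_mem (mul_mem_mul hyg hyg)
    exact mul_right_cancel₀ hg0 h1
  obtain ⟨J1, hJ1⟩ : g ∣ span {z - w * y} :=
    dvd_span_singleton.2 (sub_mem hzg (mul_mem_left _ _ hyg))
  obtain ⟨J2, hJ2⟩ : g ∣ span {z + w * y} :=
    dvd_span_singleton.2 (add_mem hzg (mul_mem_left _ _ hyg))
  obtain ⟨hne, A, hA0, hA⟩ := hF (w ^ 2) (by rw [← pow_mul, mul_comm, pow_mul, hw.pow_eq_one, one_pow])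
  obtain ⟨-, B, hB0, hB⟩ := hF 1 (one_pow p)
  have hfac : (z - w * y) * (z + w * y) = z ^ 2 + w ^ 2 * -y ^ 2 := by ring
  have hz1 : z - w * y ≠ 0 := by
    intro h0
    apply hne
    rw [← hfac, h0, zero_mul]
  have hJJ : J1 * J2 = A ^ p := by
    have h1 : g * g * (J1 * J2) = g * g * A ^ p := by
      rw [aux_mul2, ← hJ1, ← hJ2, span_singleton_mul_span_singleton, hfac, hA, hgG]
    exact mul_left_cancel₀ (mul_ne_zero hg0 hg0) h1
  have hJ10 : J1 ≠ ⊥ := by
    rintro h0
    rw [h0, mul_bot, span_singleton_eq_bot] at hJ1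
    exact hz1 hJ1
  have hcop : IsCoprime J1 J2 := by
    by_contra hcon
    rw [Ideal.isCoprime_iff_sup_eq] at hcon
    obtain ⟨P, hP, hle⟩ := exists_le_maximal _ hcon
    have hPp : P.IsPrime := hP.isPrime
    have hPI : P ∣ J1 := dvd_iff_le.2 (le_sup_left.trans hle)
    have hPJ : P ∣ J2 := dvd_iff_le.2 (le_sup_right.trans hle)
    have m1 : z - w * y ∈ P * g := by
      rw [← dvd_span_singleton, hJ1, mul_comm P g]
      exact mul_dvd_mul_left g hPI
    have m2 : z + w * y ∈ P * g := by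
      rw [← dvd_span_singleton, hJ2, mul_comm P g]
      exact mul_dvd_mul_left g hPJ
    have m3 : 2 * z ∈ P * g := by
      have : 2 * z = (z - w * y) + (z + w * y) := by ring
      rw [this]
      exact add_mem m1 m2
    have m4 : 2 * y ∈ P * g := by
      obtain ⟨u, hu⟩ := hwu
      have h1 : (2 : R) * y = ((u⁻¹ : Rˣ) : R) * ((z + w * y) - (z - w * y)) := by
        rw [← hu]
        calc (2 : R) * y = (((u⁻¹ : Rˣ) : R) * (u : R)) * (2 * y) := by rw [Units.inv_mul, one_mul]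
          _ = _ := by ring
      rw [h1]
      exact mul_mem_left _ _ (sub_mem m2 m1)
    have m5 : span {(2 : R)} * g ≤ P * g := by
      rw [hg, span_mul_span', span_le, ← hg]
      rintro _ ⟨a, ha, b, hb, rfl⟩
      rw [Set.mem_singleton_iff] at ha
      subst ha
      simp only [Set.mem_insert_iff, Set.mem_singleton_iff] at hb
      rcases hb with rfl | rfl
      · exact m3
      · exact m4
    have m6 : P ∣ span {(2 : R)} := (mul_dvd_mul_iff_right hg0).1 (dvd_iff_le.2 m5)
    have m7 : (2 : R) ∈ P := dvd_span_singleton.1 m6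
    have m8 : P * g ≤ P := by
      rw [← dvd_iff_le]
      exact dvd_mul_right P g
    exact htwo P hPp m7 (m8 m1)
  obtain ⟨A1, hA1⟩ := exists_eq_pow_of_mul_eq_pow_of_coprime hcop hJJ
  refine ⟨A1, g * B ^ ((p + 1) / 2), ?_, ?_, ?_⟩
  · rintro rfl
    apply hJ10
    rw [hA1]
    exact zero_pow hp0
  · exact mul_ne_zero hg0 (pow_ne_zero _ hB0)
  · have h1 : span {(z ^ 2 - y ^ 2) ^ ((p + 1) / 2)} = g * (g * B ^ ((p + 1) / 2)) ^ p := by
      have e1 : z ^ 2 - y ^ 2 = z ^ 2 + 1 * -y ^ 2 := by ring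
      rw [← span_singleton_pow, e1, hB, ← hgG]
      obtain ⟨m, hm⟩ := hodd
      have e2 : (p + 1) / 2 = m + 1 := by omega
      rw [e2]
      exact aux_pow g B m p hm
    rw [hJ1, hA1, h1]
    exact aux_mul _ _ _

end Pool.Agent.Y702.WQ
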